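import Mathlib

/-!
# Small dg categories, dg functors, dg algebras, dg bimodules, smoothness

Everything is over a field `k`.  Gradings are cohomological: the differential has degree `+1`.
-/

open CategoryTheory

namespace Pool.Agent.Helper54.DG

/-- The element `(-1)^n x`. -/
def sgn {V : Type} [AddCommGroup V] (n : ℤ) (x : V) : V := (n.negOnePow : ℤ) • x

/-! ## dg categories -/

/-- A small `k`-linear dg category.  `Hom X Y n` is the degree `n` part of the complex of
morphisms from `X` to `Y`; `comp h g f` is the composite `g ∘ f` of `g` of degree `m` and `f` of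
degree `n`, which has degree `p = m + n`. -/
structure DGCat (k : Type) [Field k] : Type 1 where
  Obj : Type
  Hom : Obj → Obj → ℤ → Type
  [acg : ∀ X Y n, AddCommGroup (Hom X Y n)]
  [mod : ∀ X Y n, Module k (Hom X Y n)]
  /-- the differential -/
  d : ∀ {X Y : Obj} {n m : ℤ}, n + 1 = m → Hom X Y n → Hom X Y m
  /-- the identity morphisms -/
  one : ∀ X : Obj, Hom X X 0
  /-- the composition `g ∘ f` -/
  comp : ∀ {X Y Z : Obj} {m n p : ℤ}, m + n = p → Hom Y Z m → Hom X Y n → Hom X Z p
  d_lin : ∀ (X Y : Obj) {n m : ℤ} (h : n + 1 = m), IsLinearMap k (d h : Hom X Y n → Hom X Y m)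
  comp_lin : ∀ (X : Obj) {Y Z : Obj} {m n p : ℤ} (h : m + n = p) (g : Hom Y Z m),
    IsLinearMap k (comp h g : Hom X Y n → Hom X Z p)
  lin_comp : ∀ {X Y : Obj} (Z : Obj) {m n p : ℤ} (h : m + n = p) (f : Hom X Y n),
    IsLinearMap k (fun g : Hom Y Z m => comp h g f)
  d_d : ∀ {X Y : Obj} {n m l : ℤ} (h : n + 1 = m) (h' : m + 1 = l) (f : Hom X Y n),
    d h' (d h f) = 0
  one_comp : ∀ {X Y : Obj} {n : ℤ} (f : Hom X Y n), comp (zero_add n) (one Y) f = f
  comp_one : ∀ {X Y : Obj} {n : ℤ} (f : Hom X Y n), comp (add_zero n) f (one X) = f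
  assoc : ∀ {W X Y Z : Obj} {a b c ab bc abc : ℤ} (hab : a + b = ab) (hbc : b + c = bc)
    (h₁ : ab + c = abc) (h₂ : a + bc = abc) (x : Hom Y Z a) (y : Hom X Y b) (z : Hom W X c),
    comp h₁ (comp hab x y) z = comp h₂ x (comp hbc y z)
  /-- the graded Leibniz rule `d (g ∘ f) = dg ∘ f + (-1)^|g| g ∘ df` -/
  leibniz : ∀ {X Y Z : Obj} {m n p m' n' p' : ℤ} (h : m + n = p) (hm : m + 1 = m')
    (hn : n + 1 = n') (hp : p + 1 = p') (h₁ : m' + n = p') (h₂ : m + n' = p')
    (g : Hom Y Z m) (f : Hom X Y n),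
    d hp (comp h g f) = comp h₁ (d hm g) f + sgn m (comp h₂ g (d hn f))

attribute [instance] DGCat.acg DGCat.mod

variable {k : Type} [Field k]

/-- A `k`-linear dg functor. -/
structure DGFunctor (A B : DGCat k) where
  obj : A.Obj → B.Obj
  map : ∀ {X Y : A.Obj} {n : ℤ}, A.Hom X Y n → B.Hom (obj X) (obj Y) n
  map_lin : ∀ (X Y : A.Obj) (n : ℤ), IsLinearMap k (map : A.Hom X Y n → B.Hom (obj X) (obj Y) n)
  map_one : ∀ X, map (A.one X) = B.one (obj X)
  map_comp : ∀ {X Y Z : A.Obj} {m n p : ℤ} (h : m + n = p) (g : A.Hom Y Z m) (f : A.Hom X Y n),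
    map (A.comp h g f) = B.comp h (map g) (map f)
  map_d : ∀ {X Y : A.Obj} {n m : ℤ} (h : n + 1 = m) (f : A.Hom X Y n),
    map (A.d h f) = B.d h (map f)

theorem DGFunctor.comp_lin {A B C : DGCat k} (F : DGFunctor A B) (G : DGFunctor B C)
    (X Y : A.Obj) (n : ℤ) : IsLinearMap k fun f : A.Hom X Y n => G.map (F.map f) :=
  ⟨fun x y => by rw [(F.map_lin X Y n).map_add, (G.map_lin _ _ n).map_add],
    fun c x => by rw [(F.map_lin X Y n).map_smul, (G.map_lin _ _ n).map_smul]⟩

theorem DGFunctor.comp_one {A B C : DGCat k} (F : DGFunctor A B) (G : DGFunctor B C)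
    (X : A.Obj) : G.map (F.map (A.one X)) = C.one (G.obj (F.obj X)) := by
  rw [F.map_one, G.map_one]

theorem DGFunctor.comp_comp {A B C : DGCat k} (F : DGFunctor A B) (G : DGFunctor B C)
    {X Y Z : A.Obj} {m n p : ℤ} (h : m + n = p) (g : A.Hom Y Z m) (f : A.Hom X Y n) :
    G.map (F.map (A.comp h g f)) = C.comp h (G.map (F.map g)) (G.map (F.map f)) := by
  rw [F.map_comp, G.map_comp]

theorem DGFunctor.comp_d {A B C : DGCat k} (F : DGFunctor A B) (G : DGFunctor B C)
    {X Y : A.Obj} {n m : ℤ} (h : n + 1 = m) (f : A.Hom X Y n) :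
    G.map (F.map (A.d h f)) = C.d h (G.map (F.map f)) := by
  rw [F.map_d, G.map_d]

/-- Composition of dg functors. -/
def DGFunctor.comp {A B C : DGCat k} (F : DGFunctor A B) (G : DGFunctor B C) :
    DGFunctor A C where
  obj X := G.obj (F.obj X)
  map f := G.map (F.map f)
  map_lin := F.comp_lin G
  map_one := F.comp_one G
  map_comp := F.comp_comp G
  map_d := F.comp_d G

/-- The identity dg functor. -/
def DGFunctor.refl (A : DGCat k) : DGFunctor A A where
  obj X := X
  map f := f
  map_lin _ _ _ := ⟨fun _ _ => rfl, fun _ _ => rfl⟩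
  map_one _ := rfl
  map_comp _ _ _ := rfl
  map_d _ _ := rfl

/-- The category of small `k`-linear dg categories and dg functors. -/
instance : Category (DGCat k) where
  Hom A B := DGFunctor A B
  id A := DGFunctor.refl A
  comp F G := F.comp G

/-- A sufficient condition for a dg functor `F : A → B` to be a Morita equivalence: `F` is
quasi-fully faithful, and in the homotopy category `H⁰(B)` every object of `B` is a direct summand
of a finite direct sum of objects in the image of `F`. -/
structure IsMoritaEquiv {A B : DGCat k} (F : DGFunctor A B) : Prop where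
  /-- `F` is injective on the cohomology of the complexes of morphisms -/
  inj : ∀ {X Y : A.Obj} {n m l : ℤ} (h : n + 1 = m) (h' : m + 1 = l) (f : A.Hom X Y m)
    (g : B.Hom (F.obj X) (F.obj Y) n), A.d h' f = 0 → B.d h g = F.map f →
    ∃ f' : A.Hom X Y n, A.d h f' = f
  /-- `F` is surjective on the cohomology of the complexes of morphisms -/
  surj : ∀ {X Y : A.Obj} {n m l : ℤ} (h : n + 1 = m) (h' : m + 1 = l)
    (g : B.Hom (F.obj X) (F.obj Y) m), B.d h' g = 0 →
    ∃ (f : A.Hom X Y m) (t : B.Hom (F.obj X) (F.obj Y) n), A.d h' f = 0 ∧ g = F.map f + B.d h t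
  /-- every object of `B` is a retract, in `H⁰(B)`, of a finite direct sum of `F X`'s -/
  gen : ∀ Y : B.Obj, ∃ (m : ℕ) (X : Fin m → A.Obj) (i : ∀ j, B.Hom (F.obj (X j)) Y 0)
    (p : ∀ j, B.Hom Y (F.obj (X j)) 0) (t : B.Hom Y Y (-1)),
    (∀ j, B.d (zero_add 1) (i j) = 0) ∧ (∀ j, B.d (zero_add 1) (p j) = 0) ∧
    B.one Y = ∑ j, B.comp (add_zero 0) (i j) (p j) + B.d (neg_add_cancel 1) t

/-! ## dg algebras -/

/-- A dg algebra over `k` (with an internal grading). -/
structure DGAlg (k : Type) [Field k] : Type 1 where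
  carrier : Type
  [ring : Ring carrier]
  [algebra : Algebra k carrier]
  /-- homogeneous elements of degree `n` -/
  deg : ℤ → Submodule k carrier
  internal : DirectSum.IsInternal deg
  one_mem : (1 : carrier) ∈ deg 0
  mul_mem : ∀ {m n : ℤ} {a b : carrier}, a ∈ deg m → b ∈ deg n → a * b ∈ deg (m + n)
  /-- the differential -/
  d : carrier → carrier
  d_lin : IsLinearMap k d
  d_mem : ∀ {n : ℤ} {a : carrier}, a ∈ deg n → d a ∈ deg (n + 1)
  d_d : ∀ a : carrier, d (d a) = 0
  leibniz : ∀ {n : ℤ} {a : carrier} (b : carrier), a ∈ deg n → d (a * b) = d a * b + sgn n (a * d b)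

attribute [instance] DGAlg.ring DGAlg.algebra

/-- The space of homogeneous elements of degree `n` of a dg algebra. -/
def DGAlg.Part (A : DGAlg k) (n : ℤ) : Type := A.deg n

instance (A : DGAlg k) (n : ℤ) : AddCommGroup (A.Part n) := Submodule.addCommGroup (A.deg n)

instance (A : DGAlg k) (n : ℤ) : Module k (A.Part n) := Submodule.module (A.deg n)

theorem DGAlg.d_mem' (A : DGAlg k) {n m : ℤ} (h : n + 1 = m) (a : A.Part n) :
    A.d a.1 ∈ A.deg m := h ▸ A.d_mem a.2

theorem DGAlg.mul_mem' (A : DGAlg k) {m n p : ℤ} (h : m + n = p) (a : A.Part m) (b : A.Part n) :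
    a.1 * b.1 ∈ A.deg p := h ▸ A.mul_mem a.2 b.2

/-- The differential of homogeneous elements. -/
def DGAlg.dPart (A : DGAlg k) {n m : ℤ} (h : n + 1 = m) (a : A.Part n) : A.Part m :=
  ⟨A.d a.1, A.d_mem' h a⟩

/-- The product of homogeneous elements. -/
def DGAlg.mulPart (A : DGAlg k) {m n p : ℤ} (h : m + n = p) (a : A.Part m) (b : A.Part n) :
    A.Part p :=
  ⟨a.1 * b.1, A.mul_mem' h a b⟩

/-- The unit as a homogeneous element. -/
def DGAlg.onePart (A : DGAlg k) : A.Part 0 := ⟨1, A.one_mem⟩

/-- A dg algebra, regarded as a dg category with one object. -/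
def DGAlg.toDGCat (A : DGAlg k) : DGCat k where
  Obj := Unit
  Hom _ _ n := A.Part n
  d h := A.dPart h
  one _ := A.onePart
  comp h := A.mulPart h
  d_lin _ _ _ _ _ := ⟨fun a b => Subtype.ext (A.d_lin.map_add a.1 b.1),
    fun c a => Subtype.ext (A.d_lin.map_smul c a.1)⟩
  comp_lin _ _ _ _ _ _ _ g := ⟨fun a b => Subtype.ext (mul_add g.1 a.1 b.1),
    fun c a => Subtype.ext (mul_smul_comm c g.1 a.1)⟩
  lin_comp _ _ _ _ _ f := ⟨fun a b => Subtype.ext (add_mul a.1 b.1 f.1),
    fun c a => Subtype.ext (smul_mul_assoc c a.1 f.1)⟩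
  d_d _ _ f := Subtype.ext (A.d_d f.1)
  one_comp f := Subtype.ext (one_mul f.1)
  comp_one f := Subtype.ext (mul_one f.1)
  assoc _ _ _ _ x y z := Subtype.ext (mul_assoc x.1 y.1 z.1)
  leibniz _ _ _ _ _ _ g f := Subtype.ext (A.leibniz f.1 g.2)

/-- The degree `n` part of the dg algebra `k`: everything for `n = 0` and zero otherwise. -/
def basePart (k : Type) [Field k] (n : ℤ) : Submodule k k := if n = 0 then ⊤ else ⊥

theorem mem_basePart {n : ℤ} {c : k} : c ∈ basePart k n ↔ (n ≠ 0 → c = 0) := by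
  unfold basePart
  split_ifs with h
  · simp [h]
  · simp [h]

theorem basePart_internal : DirectSum.IsInternal (basePart k) := by
  refine (DirectSum.isInternal_submodule_iff_iSupIndep_and_iSup_eq_top _).2 ⟨?_, ?_⟩
  · intro n
    by_cases h : n = 0
    · subst h
      have : ⨆ (j : ℤ) (_ : j ≠ 0), basePart k j = ⊥ := by
        refine iSup_eq_bot.2 fun j => iSup_eq_bot.2 fun hj => ?_
        simp [basePart, hj]
      rw [this]; exact disjoint_bot_right
    · simp [basePart, h]
  · refine eq_top_iff.2 ?_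
    refine le_trans ?_ (le_iSup _ (0 : ℤ))
    simp [basePart]

theorem one_mem_basePart : (1 : k) ∈ basePart k 0 := mem_basePart.2 fun h => absurd rfl h

theorem mul_mem_basePart {m n : ℤ} {a b : k} (ha : a ∈ basePart k m) (hb : b ∈ basePart k n) :
    a * b ∈ basePart k (m + n) := by
  rw [mem_basePart] at *
  intro h
  by_cases hm : m = 0
  · rw [hb (by omega), mul_zero]
  · rw [ha hm, zero_mul]

/-- The field `k`, as a dg algebra concentrated in degree zero. -/
def DGAlg.base (k : Type) [Field k] : DGAlg k where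
  carrier := k
  deg := basePart k
  internal := basePart_internal
  one_mem := one_mem_basePart
  mul_mem := mul_mem_basePart
  d _ := 0
  d_lin := ⟨fun _ _ => (add_zero 0).symm, fun c _ => (smul_zero c).symm⟩
  d_mem _ := Submodule.zero_mem _
  d_d _ := rfl
  leibniz b _ := by simp [sgn]

/-! ## dg bimodules and smoothness -/

/-- A dg bimodule over a dg algebra `A`, with left action `l a m = a • m` and right action
`r m a = m • a`. -/
structure DGBimod (A : DGAlg k) : Type 1 where
  carrier : Type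
  [acg : AddCommGroup carrier]
  [mod : Module k carrier]
  /-- homogeneous elements of degree `n` -/
  deg : ℤ → Submodule k carrier
  internal : DirectSum.IsInternal deg
  /-- left multiplication -/
  l : A.carrier → carrier → carrier
  /-- right multiplication -/
  r : carrier → A.carrier → carrier
  l_lin : ∀ a, IsLinearMap k (l a)
  lin_l : ∀ m, IsLinearMap k fun a => l a m
  r_lin : ∀ m, IsLinearMap k (r m)
  lin_r : ∀ a, IsLinearMap k fun m => r m a
  l_one : ∀ m, l 1 m = m
  l_mul : ∀ a b m, l (a * b) m = l a (l b m)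
  r_one : ∀ m, r m 1 = m
  r_mul : ∀ m a b, r m (a * b) = r (r m a) b
  l_r : ∀ a m b, l a (r m b) = r (l a m) b
  l_mem : ∀ {i j : ℤ} {a m}, a ∈ A.deg i → m ∈ deg j → l a m ∈ deg (i + j)
  r_mem : ∀ {i j : ℤ} {m a}, m ∈ deg i → a ∈ A.deg j → r m a ∈ deg (i + j)
  /-- the differential -/
  d : carrier → carrier
  d_lin : IsLinearMap k d
  d_mem : ∀ {n : ℤ} {m}, m ∈ deg n → d m ∈ deg (n + 1)
  d_d : ∀ m, d (d m) = 0
  leibniz_l : ∀ {i : ℤ} {a} (m), a ∈ A.deg i → d (l a m) = l (A.d a) m + sgn i (l a (d m))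
  leibniz_r : ∀ {i : ℤ} {m} (a), m ∈ deg i → d (r m a) = r (d m) a + sgn i (r m (A.d a))

attribute [instance] DGBimod.acg DGBimod.mod

/-- A morphism of dg bimodules: `k`-linear, bilinear over `A`, of degree zero, commuting with the
differentials. -/
structure DGBimod.Mor {A : DGAlg k} (M N : DGBimod A) where
  toFun : M.carrier → N.carrier
  lin : IsLinearMap k toFun
  map_l : ∀ a m, toFun (M.l a m) = N.l a (toFun m)
  map_r : ∀ m a, toFun (M.r m a) = N.r (toFun m) a
  map_deg : ∀ {n : ℤ} {m}, m ∈ M.deg n → toFun m ∈ N.deg n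
  map_d : ∀ m, toFun (M.d m) = N.d (toFun m)

/-- A dg algebra as a dg bimodule over itself (the diagonal bimodule). -/
def DGAlg.diagonal (A : DGAlg k) : DGBimod A where
  carrier := A.carrier
  deg := A.deg
  internal := A.internal
  l a m := a * m
  r m a := m * a
  l_lin a := ⟨mul_add a, fun c m => mul_smul_comm c a m⟩
  lin_l m := ⟨fun a b => add_mul a b m, fun c a => smul_mul_assoc c a m⟩
  r_lin m := ⟨mul_add m, fun c a => mul_smul_comm c m a⟩
  lin_r a := ⟨fun m n => add_mul m n a, fun c m => smul_mul_assoc c m a⟩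
  l_one := one_mul
  l_mul := mul_assoc
  r_one := mul_one
  r_mul m a b := (mul_assoc m a b).symm
  l_r a m b := (mul_assoc a m b).symm
  l_mem := A.mul_mem
  r_mem := A.mul_mem
  d := A.d
  d_lin := A.d_lin
  d_mem := A.d_mem
  d_d := A.d_d
  leibniz_l := A.leibniz
  leibniz_r := A.leibniz

open scoped TensorProduct in
/-- `M` is a finite free dg bimodule: there are finitely many homogeneous cycles `g i` and a
`k`-linear bijection from `(A ⊗ A)^n` to `M` sending `a ⊗ b` in position `i` to `a • g i • b`. Thus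
`M` is a finite direct sum of shifts of `A ⊗ A`. -/
def DGBimod.IsFiniteFree {A : DGAlg k} (M : DGBimod A) : Prop :=
  ∃ (n : ℕ) (g : Fin n → M.carrier) (φ : (Fin n → A.carrier ⊗[k] A.carrier) → M.carrier),
    (∀ i, ∃ j, g i ∈ M.deg j) ∧ (∀ i, M.d (g i) = 0) ∧ IsLinearMap k φ ∧
    Function.Bijective φ ∧ ∀ i a b, φ (Pi.single i (a ⊗ₜ[k] b)) = M.r (M.l a (g i)) b

/-- `0 → M → N → L → 0` is a short exact sequence. -/
def DGBimod.IsShortExact {A : DGAlg k} {M N L : DGBimod A} (f : M.Mor N) (g : N.Mor L) : Prop :=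
  Function.Injective f.toFun ∧ Function.Surjective g.toFun ∧
    ∀ x, g.toFun x = 0 ↔ ∃ m, f.toFun m = x

/-- `f` induces an isomorphism on cohomology. -/
def DGBimod.IsQuasiIso {A : DGAlg k} {M N : DGBimod A} (f : M.Mor N) : Prop :=
  (∀ m, M.d m = 0 → (∃ n, N.d n = f.toFun m) → ∃ m', M.d m' = m) ∧
    ∀ n, N.d n = 0 → ∃ m n', M.d m = 0 ∧ n = f.toFun m + N.d n'

/-- Perfect dg bimodules over `A`: the smallest class of dg bimodules which contains the finite
free ones and is closed under quasi-isomorphisms (in both directions), direct summands, and the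
two-out-of-three property for short exact sequences.  In other words, the objects of the thick
subcategory of the derived category of `A`-bimodules generated by `A ⊗ A`, that is, the perfect
(= compact) objects of that derived category. -/
inductive DGBimod.IsPerfect {A : DGAlg k} : DGBimod A → Prop
  | free (M : DGBimod A) : M.IsFiniteFree → IsPerfect M
  | ext_mid (M N L : DGBimod A) (f : M.Mor N) (g : N.Mor L) :
      IsShortExact f g → IsPerfect M → IsPerfect L → IsPerfect N
  | ext_right (M N L : DGBimod A) (f : M.Mor N) (g : N.Mor L) :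
      IsShortExact f g → IsPerfect M → IsPerfect N → IsPerfect L
  | ext_left (M N L : DGBimod A) (f : M.Mor N) (g : N.Mor L) :
      IsShortExact f g → IsPerfect N → IsPerfect L → IsPerfect M
  | retract (M N : DGBimod A) (f : M.Mor N) (g : N.Mor M) :
      (∀ m, g.toFun (f.toFun m) = m) → IsPerfect N → IsPerfect M
  | qiso_left (M N : DGBimod A) (f : M.Mor N) : IsQuasiIso f → IsPerfect N → IsPerfect M
  | qiso_right (M N : DGBimod A) (f : M.Mor N) : IsQuasiIso f → IsPerfect M → IsPerfect N

/-- A dg algebra is smooth (Kontsevich) if the diagonal bimodule is perfect. -/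
def DGAlg.IsSmooth (A : DGAlg k) : Prop := A.diagonal.IsPerfect

end Pool.Agent.Helper54.DG
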