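import Pool.Agent.Helper54.DG.Defs
import Pool.Agent.Helper54.NCM.Assembly

/-!
# Translation between the two versions of the definitions
-/

open CategoryTheory MonoidalCategory Limits

namespace Pool.Agent.Helper54.DG

open Pool.Agent.Helper54

variable {k : Type} [Field k]

/-! ## dg categories -/

/-- from the version with linear maps to the version with plain maps -/
def ofOld (A : NCM.DGCat k) : DGCat k where
  Obj := A.Obj
  Hom := A.Hom
  acg := A.acg
  mod := A.mod
  d h f := A.d h f
  one := A.one
  comp h g f := A.comp h g f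
  d_lin _ _ _ _ h := ⟨fun a b => map_add (A.d h) a b, fun c a => map_smul (A.d h) c a⟩
  comp_lin _ _ _ _ _ _ h g :=
    ⟨fun a b => map_add (A.comp h g) a b, fun c a => map_smul (A.comp h g) c a⟩
  lin_comp _ _ _ _ h f := ⟨fun a b => by
      show A.comp h (a + b) f = A.comp h a f + A.comp h b f
      rw [map_add]; rfl, fun c a => by
      show A.comp h (c • a) f = c • A.comp h a f
      rw [map_smul]; rfl⟩
  d_d := A.d_d
  one_comp := A.one_comp
  comp_one := A.comp_one
  assoc := A.assoc
  leibniz := A.leibniz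

/-- from the version with plain maps to the version with linear maps -/
def toOld (A : DGCat k) : NCM.DGCat k where
  Obj := A.Obj
  Hom := A.Hom
  acg := A.acg
  mod := A.mod
  d h := IsLinearMap.mk' (A.d h) (A.d_lin _ _ h)
  one := A.one
  comp {X Y Z m n p} h := LinearMap.mk₂ k (A.comp h : A.Hom Y Z m → A.Hom X Y n → A.Hom X Z p)
    (fun a b c => (A.lin_comp Z h c).map_add a b)
    (fun r a b => (A.lin_comp Z h b).map_smul r a)
    (fun a b c => (A.comp_lin X h a).map_add b c)
    (fun r a b => (A.comp_lin X h a).map_smul r b)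
  d_d := A.d_d
  one_comp := A.one_comp
  comp_one := A.comp_one
  assoc := A.assoc
  leibniz := A.leibniz

theorem ofOld_toOld (A : DGCat k) : ofOld (toOld A) = A := rfl

/-- The functor from the version with linear maps to the version with plain maps. -/
def Φ (k : Type) [Field k] : NCM.DGCat k ⥤ DGCat k where
  obj := ofOld
  map {A B} F :=
    { obj := F.obj
      map := fun f => F.map f
      map_lin := fun _ _ _ => ⟨fun a b => map_add F.map a b, fun c a => map_smul F.map c a⟩
      map_one := F.map_one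
      map_comp := F.map_comp
      map_d := F.map_d : DGFunctor (ofOld A) (ofOld B) }
  map_id _ := rfl
  map_comp _ _ := rfl

/-- the inverse of `Φ` on morphisms -/
def back {A B : NCM.DGCat k} (F : DGFunctor (ofOld A) (ofOld B)) : NCM.DGFunctor A B where
  obj := F.obj
  map {X Y n} := IsLinearMap.mk' (F.map (X := X) (Y := Y) (n := n)) (F.map_lin X Y n)
  map_one := F.map_one
  map_comp := F.map_comp
  map_d := F.map_d

instance : (Φ k).Faithful where
  map_injective {A B} F G h := by
    have h1 : back ((Φ k).map F) = back ((Φ k).map G) := congrArg back h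
    exact h1

instance : (Φ k).Full where
  map_surjective {A B} F := ⟨back F, rfl⟩

instance : (Φ k).EssSurj where
  mem_essImage B := ⟨toOld B, ⟨Iso.refl _⟩⟩

instance : (Φ k).IsEquivalence where

theorem isMoritaEquiv_of_old {A B : NCM.DGCat k} {F : NCM.DGFunctor A B}
    (h : NCM.IsMoritaEquiv F) : IsMoritaEquiv ((Φ k).map F) :=
  ⟨h.inj, h.surj, h.gen⟩

/-! ## dg algebras -/

/-- from the version with linear maps to the version with plain maps -/
def algOfOld (A : NCM.DGAlg k) : DGAlg k where
  carrier := A.carrier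
  ring := A.ring
  algebra := A.algebra
  deg := A.deg
  internal := A.internal
  one_mem := A.one_mem
  mul_mem := A.mul_mem
  d a := A.d a
  d_lin := ⟨fun a b => map_add A.d a b, fun c a => map_smul A.d c a⟩
  d_mem := A.d_mem
  d_d := A.d_d
  leibniz := A.leibniz

theorem ofOld_toDGCat (A : NCM.DGAlg k) : ofOld A.toDGCat = (algOfOld A).toDGCat := rfl

/-! ## the dg algebra `k` -/

/-- the two versions of the dg category `k` are isomorphic -/
def baseIso (k : Type) [Field k] : (Φ k).obj (NCM.unit k) ≅ (DGAlg.base k).toDGCat where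
  hom :=
    { obj := fun _ => ()
      map := fun f => ⟨f.1, (mem_basePart (k := k)).2 f.2⟩
      map_lin := fun _ _ _ => ⟨fun _ _ => rfl, fun _ _ => rfl⟩
      map_one := fun _ => rfl
      map_comp := fun _ _ _ => rfl
      map_d := fun _ _ => rfl : DGFunctor (ofOld (NCM.unit k)) (DGAlg.base k).toDGCat }
  inv :=
    { obj := fun _ => ()
      map := fun f => ⟨f.1, (mem_basePart (k := k)).1 f.2⟩
      map_lin := fun _ _ _ => ⟨fun _ _ => rfl, fun _ _ => rfl⟩
      map_one := fun _ => rfl
      map_comp := fun _ _ _ => rfl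
      map_d := fun _ _ => rfl : DGFunctor (DGAlg.base k).toDGCat (ofOld (NCM.unit k)) }
  hom_inv_id := rfl
  inv_hom_id := rfl

/-! ## bimodules -/

section bimod

variable {A : NCM.DGAlg k}

theorem old_l_lin (M : NCM.DGBimod A) (m : M.carrier) :
    IsLinearMap k (fun a : A.carrier => M.l a m) :=
  ⟨fun x y => by rw [map_add]; rfl, fun c x => by rw [map_smul]; rfl⟩

theorem old_r_lin (M : NCM.DGBimod A) (m : M.carrier) :
    IsLinearMap k (fun a : A.carrier => M.r a m) :=
  ⟨fun x y => by rw [map_add]; rfl, fun c x => by rw [map_smul]; rfl⟩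

/-- from the version with linear maps to the version with plain maps -/
def bimodOfOld (M : NCM.DGBimod A) : DGBimod (algOfOld A) where
  carrier := M.carrier
  acg := M.acg
  mod := M.mod
  deg := M.deg
  internal := M.internal
  l a m := M.l a m
  r m a := M.r a m
  l_lin a := ⟨fun x y => map_add (M.l a) x y, fun c x => map_smul (M.l a) c x⟩
  lin_l := old_l_lin M
  r_lin := old_r_lin M
  lin_r a := ⟨fun x y => map_add (M.r a) x y, fun c x => map_smul (M.r a) c x⟩
  l_one := M.l_one
  l_mul := M.l_mul
  r_one := M.r_one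
  r_mul m a b := M.r_mul a b m
  l_r a m b := M.l_r a b m
  l_mem := M.l_mem
  r_mem hm ha := M.r_mem ha hm
  d m := M.d m
  d_lin := ⟨fun a b => map_add M.d a b, fun c a => map_smul M.d c a⟩
  d_mem := M.d_mem
  d_d := M.d_d
  leibniz_l := M.leibniz_l
  leibniz_r := M.leibniz_r

/-- from the version with linear maps to the version with plain maps -/
def morOfOld {M N : NCM.DGBimod A} (f : NCM.DGBimod.Mor M N) :
    (bimodOfOld M).Mor (bimodOfOld N) where
  toFun m := f.toFun m
  lin := ⟨fun a b => map_add f.toFun a b, fun c a => map_smul f.toFun c a⟩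
  map_l := f.map_l
  map_r m a := f.map_r a m
  map_deg := f.map_deg
  map_d := f.map_d

theorem diagonal_ofOld : bimodOfOld A.diagonal = (algOfOld A).diagonal := rfl

open scoped TensorProduct in
/-- the linear map in the definition of finite free bimodules -/
def freeMap (M : NCM.DGBimod A) {n : ℕ} (g : Fin n → M.carrier) :
    (Fin n → A.carrier ⊗[k] A.carrier) →ₗ[k] M.carrier :=
  ∑ i, (TensorProduct.lift (LinearMap.mk₂ k (fun a b => M.l a (M.r b (g i)))
        (fun a a' b => by simp) (fun c a b => by simp) (fun a b b' => by simp)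
        (fun c a b => by simp))) ∘ₗ LinearMap.proj i

open scoped TensorProduct in
theorem freeMap_apply (M : NCM.DGBimod A) {n : ℕ} (g : Fin n → M.carrier)
    (x : Fin n → A.carrier ⊗[k] A.carrier) : freeMap M g x =
      ∑ i, TensorProduct.lift (LinearMap.mk₂ k (fun a b => M.l a (M.r b (g i)))
        (fun a a' b => by simp) (fun c a b => by simp) (fun a b b' => by simp)
        (fun c a b => by simp)) (x i) := by
  simp [freeMap]

open scoped TensorProduct in
theorem freeMap_single (M : NCM.DGBimod A) {n : ℕ} (g : Fin n → M.carrier) (i : Fin n)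
    (a b : A.carrier) : freeMap M g (Pi.single i (a ⊗ₜ[k] b)) = M.r b (M.l a (g i)) := by
  rw [freeMap_apply, Finset.sum_eq_single i]
  · simp only [Pi.single_eq_same, TensorProduct.lift.tmul, LinearMap.mk₂_apply]
    exact M.l_r a b (g i)
  · intro j _ hj
    rw [Pi.single_eq_of_ne hj, map_zero]
  · intro hi
    exact absurd (Finset.mem_univ i) hi

theorem isFiniteFree_ofOld {M : NCM.DGBimod A} (h : M.IsFiniteFree) :
    (bimodOfOld M).IsFiniteFree := by
  obtain ⟨n, g, h1, h2, h3⟩ := h
  refine ⟨n, g, freeMap M g, h1, h2, ⟨fun x y => map_add (freeMap M g) x y,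
    fun c x => map_smul (freeMap M g) c x⟩, ?_, fun i a b => freeMap_single M g i a b⟩
  have : (freeMap M g : _ → _) = _ := funext fun x => freeMap_apply M g x
  rw [this]
  exact h3

theorem isPerfect_ofOld {M : NCM.DGBimod A} (h : M.IsPerfect) : (bimodOfOld M).IsPerfect := by
  induction h with
  | free M h => exact .free _ (isFiniteFree_ofOld h)
  | ext_mid M N L f g h1 h2 h3 _ _ ih ih' =>
    refine .ext_mid _ _ _ (morOfOld f) (morOfOld g) ⟨h1, h2, fun x => ?_⟩ ih ih'
    exact SetLike.ext_iff.1 h3 x
  | ext_right M N L f g h1 h2 h3 _ _ ih ih' =>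
    refine .ext_right _ _ _ (morOfOld f) (morOfOld g) ⟨h1, h2, fun x => ?_⟩ ih ih'
    exact SetLike.ext_iff.1 h3 x
  | ext_left M N L f g h1 h2 h3 _ _ ih ih' =>
    refine .ext_left _ _ _ (morOfOld f) (morOfOld g) ⟨h1, h2, fun x => ?_⟩ ih ih'
    exact SetLike.ext_iff.1 h3 x
  | retract M N f g h _ ih => exact .retract _ _ (morOfOld f) (morOfOld g) h ih
  | qiso_left M N f h1 h2 _ ih =>
    refine .qiso_left _ _ (morOfOld f) ⟨h1, fun n hn => ?_⟩ ih
    obtain ⟨m, hm, n', hn'⟩ := h2 n hn
    refine ⟨m, n', hm, ?_⟩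
    show n = f.toFun m + N.d n'
    rw [hn']; exact (add_sub_cancel _ _).symm
  | qiso_right M N f h1 h2 _ ih =>
    refine .qiso_right _ _ (morOfOld f) ⟨h1, fun n hn => ?_⟩ ih
    obtain ⟨m, hm, n', hn'⟩ := h2 n hn
    refine ⟨m, n', hm, ?_⟩
    show n = f.toFun m + N.d n'
    rw [hn']; exact (add_sub_cancel _ _).symm

theorem isSmooth_ofOld (h : A.IsSmooth) : (algOfOld A).IsSmooth := by
  have := isPerfect_ofOld h
  rwa [diagonal_ofOld] at this

end bimod

universe v u

theorem main (k : Type) [Field k] (h2 : (2 : k) ≠ 0) :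
    ∃ A : DGAlg k, A.IsSmooth ∧
      ∀ (C : Type u) [Category.{v} C] [Preadditive C] [Linear ℚ C] [MonoidalCategory C]
        [SymmetricCategory C] [MonoidalPreadditive C] [MonoidalLinear ℚ C]
        (U : DGCat k ⥤ C) [PreservesFiniteCoproducts U],
        (∀ {B B' : DGCat k} (F : B ⟶ B'), IsMoritaEquiv F → IsIso (U.map F)) →
        Nonempty (U.obj (DGAlg.base k).toDGCat ≅ 𝟙_ C) → ¬ IsZero (𝟙_ C) →
        ¬ NCM.IsSchurFinite (U.obj A.toDGCat) := by
  obtain ⟨A, hA, H⟩ := NCM.main.{v, u} k h2
  refine ⟨algOfOld A, isSmooth_ofOld hA, ?_⟩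
  intro C _ _ _ _ _ _ _ U _ hU ⟨φ⟩ h0
  have hp : PreservesFiniteCoproducts (Φ k ⋙ U) := by infer_instance
  have := H C (Φ k ⋙ U) (fun F hF => hU _ (isMoritaEquiv_of_old hF))
    ⟨U.mapIso (baseIso k) ≪≫ φ⟩ h0
  exact this

end Pool.Agent.Helper54.DG
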